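import Pool.Agent.Helper12_NGR.Stmts

/-!
# Locally indicable groups with noetherian group ring and DCC on completely prime ideals
-/

universe u

namespace Pool.Agent.NGR.H90

open Finset
open scoped commutatorElement

/-- Unique products in an extension. -/
theorem up_ext {A B : Type u} [Group A] [Group B] (f : A →* B) (hB : UniqueProds B)
    (hK : UniqueProds f.ker) : UniqueProds A where
  uniqueMul_of_nonempty {S T} hS hT := by
    classical
    obtain ⟨b₀, hb₀, b₁, hb₁, h⟩ := hB.uniqueMul_of_nonempty (hS.image f) (hT.image f)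
    obtain ⟨a₀, ha₀, rfl⟩ := mem_image.mp hb₀
    obtain ⟨a₁, ha₁, rfl⟩ := mem_image.mp hb₁
    -- the fibres, translated into the kernel
    let l : f.ker → A := fun k => a₀ * k
    let r : f.ker → A := fun k => k * a₁
    have hl : Function.Injective l := fun x y h => Subtype.ext (mul_left_cancel h)
    have hr : Function.Injective r := fun x y h => Subtype.ext (mul_right_cancel h)
    let U : Finset f.ker := S.preimage l hl.injOn
    let V : Finset f.ker := T.preimage r hr.injOn
    have hU : U.Nonempty := ⟨1, by simp [U, l, ha₀]⟩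
    have hV : V.Nonempty := ⟨1, by simp [V, r, ha₁]⟩
    obtain ⟨u, hu, v, hv, huv⟩ := hK.uniqueMul_of_nonempty hU hV
    rw [mem_preimage] at hu hv
    have fl : f (l u) = f a₀ := by
      change f (a₀ * u) = _
      rw [map_mul, (f.mem_ker).1 u.2, mul_one]
    have fr : f (r v) = f a₁ := by
      change f (v * a₁) = _
      rw [map_mul, (f.mem_ker).1 v.2, one_mul]
    refine ⟨l u, hu, r v, hv, UniqueMul.of_image_filter (f : A →ₙ* B) fl fr h ?_⟩
    intro a b ha hb hab
    rw [mem_filter] at ha hb
    have ka : a₀⁻¹ * a ∈ f.ker := by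
      rw [MonoidHom.mem_ker, map_mul, map_inv, show f a = f a₀ from ha.2, inv_mul_cancel]
    have kb : b * a₁⁻¹ ∈ f.ker := by
      rw [MonoidHom.mem_ker, map_mul, map_inv, show f b = f a₁ from hb.2, mul_inv_cancel]
    have hu' : (⟨a₀⁻¹ * a, ka⟩ : f.ker) ∈ U := by
      rw [mem_preimage]
      change a₀ * (a₀⁻¹ * a) ∈ S
      rw [mul_inv_cancel_left]
      exact ha.1
    have hv' : (⟨b * a₁⁻¹, kb⟩ : f.ker) ∈ V := by
      rw [mem_preimage]
      change b * a₁⁻¹ * a₁ ∈ T
      rw [inv_mul_cancel_right]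
      exact hb.1
    have hm : a * b = a₀ * u * (v * a₁) := hab
    obtain ⟨e₁, e₂⟩ := huv hu' hv' (Subtype.ext (by
      change a₀⁻¹ * a * (b * a₁⁻¹) = u * v
      have : a₀⁻¹ * a * (b * a₁⁻¹) = a₀⁻¹ * (a * b) * a₁⁻¹ := by group
      rw [this, hm]
      group))
    constructor
    · rw [← e₁]
      exact (mul_inv_cancel_left a₀ a).symm
    · rw [← e₂]
      exact (inv_mul_cancel_right b a₁).symm

/-- The elements of finite order modulo the commutator subgroup. -/
def tors (H : Type u) [Group H] : Subgroup H :=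
  (CommGroup.torsion (Abelianization H)).comap Abelianization.of

instance tors_char (H : Type u) [Group H] : (tors H).Characteristic where
  fixed φ := by
    ext h
    have := MulEquiv.comap_torsion (φ.abelianizationCongr)
    change Abelianization.of (φ h) ∈ CommGroup.torsion (Abelianization H) ↔
      Abelianization.of h ∈ CommGroup.torsion (Abelianization H)
    conv_rhs => rw [← this]
    rfl

variable {G : Type u} [Group G]

/-- The next group of the chain. -/
def nxt (H : Subgroup G) : Subgroup G := (tors H).map H.subtype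

theorem nxt_le (H : Subgroup G) : nxt H ≤ H := Subgroup.map_subtype_le _

theorem nxt_normal (H : Subgroup G) [H.Normal] : (nxt H).Normal :=
  ConjAct.normal_of_characteristic_of_normal

theorem mem_nxt {H : Subgroup G} {g : G} (hg : g ∈ H) :
    g ∈ nxt H ↔ (⟨g, hg⟩ : H) ∈ tors H := by
  constructor
  · rintro ⟨h, hh, rfl⟩
    exact hh
  · intro h
    exact ⟨⟨g, hg⟩, h, rfl⟩

theorem comm_le_nxt (H : Subgroup G) : ⁅H, H⁆ ≤ nxt H := by
  rw [Subgroup.commutator_le]
  intro a ha b hb
  have h : a * b * a⁻¹ * b⁻¹ ∈ H :=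
    H.mul_mem (H.mul_mem (H.mul_mem ha hb) (H.inv_mem ha)) (H.inv_mem hb)
  rw [commutatorElement_def, mem_nxt h]
  change Abelianization.of (⁅(⟨a, ha⟩ : H), (⟨b, hb⟩ : H)⁆) ∈ CommGroup.torsion (Abelianization H)
  rw [map_commutatorElement, commutatorElement_eq_one_iff_mul_comm.2 (mul_comm _ _)]
  exact one_mem _

theorem nxt_lt {H : Subgroup G} (f : H →* Multiplicative ℤ) (hf : Function.Surjective f) :
    nxt H < H := by
  refine lt_of_le_of_ne (nxt_le H) fun he => ?_
  obtain ⟨⟨g, hg⟩, hg'⟩ := hf (Multiplicative.ofAdd 1)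
  have h : g ∈ nxt H := by rw [he]; exact hg
  rw [mem_nxt hg] at h
  have h2 : IsOfFinOrder (Abelianization.lift f (Abelianization.of ⟨g, hg⟩)) :=
    MonoidHom.isOfFinOrder (Abelianization.lift f) h
  rw [Abelianization.lift_apply_of, hg', isOfFinOrder_iff_pow_eq_one] at h2
  obtain ⟨n, hn, h3⟩ := h2
  have h4 : (n : ℤ) * 1 = 0 := by
    have := congrArg Multiplicative.toAdd h3
    simpa using this
  omega

/-- The chain. -/
def ch (G : Type u) [Group G] : ℕ → Subgroup G
  | 0 => ⊤
  | n + 1 => nxt (ch G n)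

theorem ch_normal : ∀ n, (ch G n).Normal
  | 0 => by rw [ch]; infer_instance
  | n + 1 => by
    have := ch_normal n
    exact nxt_normal _

instance (n : ℕ) : (ch G n).Normal := ch_normal n

theorem ch_succ_le (n : ℕ) : ch G (n + 1) ≤ ch G n := nxt_le _

theorem derived_le (n : ℕ) : derivedSeries G n ≤ ch G n := by
  induction n with
  | zero => exact le_top
  | succ n ih =>
    rw [derivedSeries_succ]
    exact (Subgroup.commutator_mono ih ih).trans (comm_le_nxt _)

/-- The quotients have unique products. -/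
theorem up_quot (hmax : ∀ H : Subgroup G, H.FG) (n : ℕ) : UniqueProds (G ⧸ ch G n) := by
  induction n with
  | zero =>
    have : Subsingleton (G ⧸ ch G 0) := QuotientGroup.subsingleton_quotient_top
    exact ⟨fun {A B} hA hB => by
      obtain ⟨a, ha⟩ := hA
      obtain ⟨b, hb⟩ := hB
      exact ⟨a, ha, b, hb, UniqueMul.of_subsingleton⟩⟩
  | succ n ih =>
    set H : Subgroup G := ch G n with hH
    let π : G ⧸ ch G (n + 1) →* G ⧸ H :=
      QuotientGroup.map _ _ (MonoidHom.id G) (by
        rw [Subgroup.comap_id]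
        exact ch_succ_le n)
    refine up_ext π ih ?_
    -- the kernel is `H / nxt H`
    let A := Abelianization H
    let T := CommGroup.torsion A
    have hfg : Group.FG H := (Group.fg_iff_subgroup_fg H).2 (hmax H)
    have hfgA : Group.FG A := Group.fg_of_surjective (f := Abelianization.of)
      (QuotientGroup.mk'_surjective _)
    have hfgAT : Group.FG (A ⧸ T) := Group.fg_of_surjective (f := QuotientGroup.mk' T)
      (QuotientGroup.mk'_surjective _)
    have up : UniqueProds (A ⧸ T) := by
      have : Monoid.FG (A ⧸ T) := (Group.fg_iff_monoid_fg).1 hfgAT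
      infer_instance
    let g : H →* A ⧸ T := (QuotientGroup.mk' T).comp Abelianization.of
    have hg : ∀ h : H, g h = 1 ↔ (h : G) ∈ ch G (n + 1) := by
      intro h
      change ((Abelianization.of h : A) : A ⧸ T) = 1 ↔ (h : G) ∈ nxt H
      rw [QuotientGroup.eq_one_iff, mem_nxt h.2]
      rfl
    let k : H →* π.ker :=
      { toFun := fun h => ⟨((h : G) : G ⧸ ch G (n + 1)), by
          rw [MonoidHom.mem_ker]
          change ((h : G) : G ⧸ H) = 1
          exact (QuotientGroup.eq_one_iff _).2 h.2⟩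
        map_one' := rfl
        map_mul' := fun _ _ => rfl }
    have hk : Function.Surjective k := by
      rintro ⟨x, hx⟩
      obtain ⟨x, rfl⟩ := QuotientGroup.mk_surjective x
      rw [MonoidHom.mem_ker] at hx
      change ((x : G) : G ⧸ H) = 1 at hx
      exact ⟨⟨x, (QuotientGroup.eq_one_iff _).1 hx⟩, rfl⟩
    have hkk : k.ker = g.ker := by
      ext h
      rw [MonoidHom.mem_ker, MonoidHom.mem_ker, hg]
      rw [Subtype.ext_iff]
      change ((h : G) : G ⧸ ch G (n + 1)) = 1 ↔ _
      exact QuotientGroup.eq_one_iff _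
    let e : π.ker ≃* H ⧸ k.ker := (QuotientGroup.quotientKerEquivOfSurjective k hk).symm
    let e' : H ⧸ k.ker ≃* H ⧸ g.ker := QuotientGroup.quotientMulEquivOfEq hkk
    let m : π.ker →* A ⧸ T := (QuotientGroup.kerLift g).comp (e.trans e').toMonoidHom
    refine UniqueProds.of_injective_mulHom (m : π.ker →ₙ* A ⧸ T) ?_ up
    exact (QuotientGroup.kerLift_injective g).comp (e.trans e').injective

/-- The kernels of the maps to the group rings of the quotients. -/
noncomputable def pr (G : Type u) [Group G] (n : ℕ) : TwoSidedIdeal (MonoidAlgebra ℤ G) :=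
  TwoSidedIdeal.ker (MonoidAlgebra.mapDomainRingHom ℤ (QuotientGroup.mk' (ch G n)))

theorem mem_pr {n : ℕ} {x : MonoidAlgebra ℤ G} : x ∈ pr G n ↔
    MonoidAlgebra.mapDomainRingHom ℤ (QuotientGroup.mk' (ch G n)) x = 0 := TwoSidedIdeal.mem_ker _

theorem pr_prime (hmax : ∀ H : Subgroup G, H.FG) (n : ℕ) : CompletelyPrime (pr G n) := by
  have := up_quot hmax n
  have : IsDomain (MonoidAlgebra ℤ (G ⧸ ch G n)) := NoZeroDivisors.to_isDomain _
  constructor
  · rw [mem_pr, map_one]
    exact one_ne_zero
  · intro x y h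
    rw [mem_pr, map_mul] at h
    rw [mem_pr, mem_pr]
    exact mul_eq_zero.1 h

theorem pr_lt {n : ℕ} (h : ch G (n + 1) < ch G n) : pr G (n + 1) < pr G n := by
  obtain ⟨g, hg, hg'⟩ := SetLike.exists_of_lt h
  refine lt_of_le_of_ne ?_ fun he => ?_
  · let π : G ⧸ ch G (n + 1) →* G ⧸ ch G n :=
      QuotientGroup.map _ _ (MonoidHom.id G) (by
        rw [Subgroup.comap_id]
        exact ch_succ_le n)
    have hc : MonoidAlgebra.mapDomainRingHom ℤ (QuotientGroup.mk' (ch G n)) =
        (MonoidAlgebra.mapDomainRingHom ℤ π).comp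
          (MonoidAlgebra.mapDomainRingHom ℤ (QuotientGroup.mk' (ch G (n + 1)))) := by
      ext x <;> simp [π]
    intro x hx
    rw [mem_pr] at hx ⊢
    rw [hc, RingHom.comp_apply, hx, map_zero]
  · have h1 : MonoidAlgebra.single g (1 : ℤ) - 1 ∈ pr G n := by
      rw [mem_pr, map_sub, map_one, MonoidAlgebra.mapDomainRingHom_apply,
        MonoidAlgebra.mapDomain_single, QuotientGroup.mk'_apply, (QuotientGroup.eq_one_iff g).2 hg]
      exact sub_self _
    rw [← he, mem_pr, map_sub, map_one, MonoidAlgebra.mapDomainRingHom_apply,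
      MonoidAlgebra.mapDomain_single, QuotientGroup.mk'_apply, sub_eq_zero,
      MonoidAlgebra.one_def] at h1
    have h2 := MonoidAlgebra.single_left_injective (one_ne_zero : (1 : ℤ) ≠ 0) h1
    exact hg' ((QuotientGroup.eq_one_iff g).1 h2)

/-- DCP. -/
theorem dcp : DcpStmt.{u} := by
  intro G _ hG hdcc
  have hmax : ∀ H : Subgroup G, H.FG := fun H => (hG H).1
  have : ∃ n, ch G n = ⊥ := by
    by_contra hn
    push Not at hn
    refine hdcc ⟨pr G, fun n => pr_prime hmax n, fun n => pr_lt ?_⟩
    obtain ⟨f, hf⟩ := (hG _).2 (hn n)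
    exact nxt_lt f hf
  obtain ⟨n, hn⟩ := this
  exact ⟨n, le_bot_iff.1 ((derived_le n).trans hn.le)⟩

end Pool.Agent.NGR.H90
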